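import Pool.Agent.Helper14.LK.St
import Pool.Agent.Helper14.LK.Basic

/-! Project LK (MP_58b586_gt), module PAR: smoothness of integrals depending on a parameter. -/

set_option autoImplicit false

namespace Pool.Agent.Helper48.LK

open Pool.Agent.Helper14.LK
open scoped ContDiff Topology
open MeasureTheory Set Filter

section

variable {K P : Type} [NormedAddCommGroup K] [NormedSpace ℝ K] [FiniteDimensional ℝ K]
  [MeasurableSpace K] [BorelSpace K] [NormedAddCommGroup P] [NormedSpace ℝ P]
  [FiniteDimensional ℝ P]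

private lemma par_cont {G : Type} [NormedAddCommGroup G] [NormedSpace ℝ G]
    (μ : Measure K) [IsLocallyFiniteMeasure μ] {K₀ : Set K} (hK : IsCompact K₀) {f : P → K → G}
    (hf : Continuous (Function.uncurry f)) : Continuous (fun p => ∫ z in K₀, f p z ∂μ) := by
  have := FiniteDimensional.proper ℝ K
  have := FiniteDimensional.proper ℝ P
  exact continuous_parametric_integral_of_continuous hf hK

omit [FiniteDimensional ℝ K] [MeasurableSpace K] [BorelSpace K] [FiniteDimensional ℝ P] in
private lemma par_der {G : Type} [NormedAddCommGroup G] [NormedSpace ℝ G]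
    {f : P → K → G} (hf : ContDiff ℝ ∞ (Function.uncurry f)) (p : P) (z : K) :
    HasFDerivAt (fun q => f q z) ((fderiv ℝ (Function.uncurry f) (p, z)).comp
      (ContinuousLinearMap.inl ℝ P K)) p := by
  have h1 : HasFDerivAt (Function.uncurry f) (fderiv ℝ (Function.uncurry f) (p, z)) (p, z) :=
    (hf.differentiable (by simp) (p, z)).hasFDerivAt
  have h2 : HasFDerivAt (fun q : P => (q, z)) (ContinuousLinearMap.inl ℝ P K) p :=
    hasFDerivAt_prodMk_left p z
  exact h1.comp p h2

omit [FiniteDimensional ℝ K] [MeasurableSpace K] [BorelSpace K] [FiniteDimensional ℝ P] in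
private lemma par_smooth' {G : Type} [NormedAddCommGroup G] [NormedSpace ℝ G]
    {f : P → K → G} (hf : ContDiff ℝ ∞ (Function.uncurry f)) :
    ContDiff ℝ ∞ (Function.uncurry (fun (p : P) (z : K) =>
      (fderiv ℝ (Function.uncurry f) (p, z)).comp (ContinuousLinearMap.inl ℝ P K))) := by
  have h1 : ContDiff ℝ ∞ (fderiv ℝ (Function.uncurry f)) :=
    hf.fderiv_right (by simp)
  have h2 : ContDiff ℝ ∞ (fun q : P × K => (fderiv ℝ (Function.uncurry f) q).comp
      (ContinuousLinearMap.inl ℝ P K)) := h1.clm_comp contDiff_const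
  exact h2

private lemma par_int {G : Type} [NormedAddCommGroup G] [NormedSpace ℝ G]
    (μ : Measure K) [IsLocallyFiniteMeasure μ] {K₀ : Set K} (hK : IsCompact K₀) {f : K → G}
    (hf : Continuous f) : Integrable f (μ.restrict K₀) :=
  hf.continuousOn.integrableOn_compact hK

private lemma par_hasFDerivAt {G : Type} [NormedAddCommGroup G] [NormedSpace ℝ G]
    (μ : Measure K) [IsLocallyFiniteMeasure μ] {K₀ : Set K} (hK : IsCompact K₀) {f : P → K → G}
    (hf : ContDiff ℝ ∞ (Function.uncurry f)) (p : P) :
    HasFDerivAt (fun p => ∫ z in K₀, f p z ∂μ)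
      (∫ z in K₀, (fderiv ℝ (Function.uncurry f) (p, z)).comp
        (ContinuousLinearMap.inl ℝ P K) ∂μ) p := by
  have := FiniteDimensional.proper ℝ K
  have := FiniteDimensional.proper ℝ P
  have hF' : Continuous (Function.uncurry (fun (p : P) (z : K) =>
      (fderiv ℝ (Function.uncurry f) (p, z)).comp (ContinuousLinearMap.inl ℝ P K))) :=
    (par_smooth' hf).continuous
  obtain ⟨M, hM⟩ := ((isCompact_closedBall p 1).prod hK).exists_bound_of_continuousOn
    hF'.continuousOn
  have hfc : ∀ q, Continuous (f q) := fun q =>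
    hf.continuous.comp (continuous_const.prodMk continuous_id)
  have hF'c : Continuous (fun z : K =>
      (fderiv ℝ (Function.uncurry f) (p, z)).comp (ContinuousLinearMap.inl ℝ P K)) :=
    hF'.comp (continuous_const.prodMk continuous_id)
  refine hasFDerivAt_integral_of_dominated_of_fderiv_le (μ := μ.restrict K₀)
    (F := f) (F' := fun (q : P) (z : K) => (fderiv ℝ (Function.uncurry f) (q, z)).comp
      (ContinuousLinearMap.inl ℝ P K)) (x₀ := p) (s := Metric.closedBall p 1)
    (bound := fun _ => M) (Metric.closedBall_mem_nhds p zero_lt_one)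
    (Eventually.of_forall fun q => (hfc q).aestronglyMeasurable) (par_int μ hK (hfc p))
    hF'c.aestronglyMeasurable ?_ ?_ ?_
  · refine (ae_restrict_iff' hK.measurableSet).2 (Eventually.of_forall fun z hz q hq => ?_)
    exact hM (q, z) ⟨hq, hz⟩
  · exact par_int μ hK continuous_const
  · exact Eventually.of_forall fun z q _ => par_der hf q z

private lemma par_nat (μ : Measure K) [IsLocallyFiniteMeasure μ] {K₀ : Set K}
    (hK : IsCompact K₀) (k : ℕ) : ∀ (G : Type) [NormedAddCommGroup G] [NormedSpace ℝ G]
    (f : P → K → G), ContDiff ℝ ∞ (Function.uncurry f) →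
    ContDiff ℝ k (fun p => ∫ z in K₀, f p z ∂μ) := by
  induction k with
  | zero =>
    intro G _ _ f hf
    exact contDiff_zero.2 (par_cont μ hK hf.continuous)
  | succ k ih =>
    intro G _ _ f hf
    rw [Nat.cast_succ, contDiff_succ_iff_fderiv]
    refine ⟨fun p => (par_hasFDerivAt μ hK hf p).differentiableAt, by simp, ?_⟩
    have h := ih (P →L[ℝ] G) _ (par_smooth' hf)
    have e : fderiv ℝ (fun p => ∫ z in K₀, f p z ∂μ) = fun p => ∫ z in K₀,
        (fderiv ℝ (Function.uncurry f) (p, z)).comp (ContinuousLinearMap.inl ℝ P K) ∂μ := by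
      funext p
      exact (par_hasFDerivAt μ hK hf p).fderiv
    rw [e]
    exact h

end

theorem hPAR : StPAR := by
  intro K P G _ _ _ _ _ _ _ _ _ _ _ μ _ K₀ hK f hf
  refine ⟨contDiff_infty.2 fun k => par_nat μ hK k G f hf, ?_⟩
  intro p v
  have hF' : Continuous (fun z : K =>
      (fderiv ℝ (Function.uncurry f) (p, z)).comp (ContinuousLinearMap.inl ℝ P K)) :=
    (par_smooth' hf).continuous.comp (continuous_const.prodMk continuous_id)
  rw [(par_hasFDerivAt μ hK hf p).fderiv, ContinuousLinearMap.integral_apply (par_int μ hK hF')]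
  congr 1
  funext z
  rw [(par_der hf p z).fderiv]

end Pool.Agent.Helper48.LK
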